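import Pool.Agent.K9h79.CC.Main

/-!
# The cofinality of the polymorphism clones of `(ℚ, ≤)` and of the rational Urysohn sphere

The definitions are in `Pool/Agent/R794/UQ/Defs.lean` (operations, clones, `Pol`, the rational
Urysohn sphere as a Fraisse limit, the relations `d x y ≤ q`, the relation `≤` on `ℚ`) and
`Pool/Agent/R794/UQ/CofDefs.lean` (`ProperChain`, the cofinality `cf`).

The sphere is a theorem of the starting files (`UncountableCofinality`). For `(ℚ, ≤)` we show
(`Pool/Agent/K9h79/CC`) that for every `k` some monotone operation of arity `k + 2` is not a
composition of monotone operations of arity `k + 1`. A finite pattern `(m, φ)` is a monotone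
`φ : [0, m)^n → ℕ`; a product Ramsey theorem for pairs shows that a monotone function on a large
grid is, on a smaller grid, decided by one coordinate; hence for each pattern `P` there is a pattern
`Q` such that every monotone function which on `Q` is decided by all coordinates but one is, on some
copy of `P` in `Q`, decided by one coordinate. Iterating, and placing all the patterns in one
monotone function `f`, every composition of operations of arity `n - 1` is decided by one coordinate
on a copy of the first pattern inside `f`, but `f` is not.
-/

set_option autoImplicit false

namespace Pool.Agent.Results.MP_18f3df_al.SphereAndRationals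

open Pool.Agent.R794.UQ Cardinal

/-- The answer to Q2: the cofinality of the polymorphism clone of the rational Urysohn sphere is
uncountable, and that of the polymorphism clone of `(ℚ, ≤)` is `ℵ₀`. -/
theorem result :
    (∀ (X : Type) (d : X → X → ℚ), IsUrysohnSphere d → ℵ₀ < cf (Pol (metricRel d))) ∧
    cf (Pol leRel) = ℵ₀ :=
  ⟨fun _ _ hX => cf_sphere hX, Pool.Agent.K9h79.CC.cf_le_eq⟩

end Pool.Agent.Results.MP_18f3df_al.SphereAndRationals
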